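import Mathlib

open Finset Matrix
open scoped RealInnerProductSpace

namespace Pool.Agent.Results.MP_67c61c_pr.LazyPseudoGap

noncomputable section

/-! ### Definitions used in the statement -/

/-- An ergodic transition matrix: row-stochastic, and irreducible and aperiodic, that is, some
power of it has all its entries positive. -/
def IsErgodic {d : ℕ} (M : Matrix (Fin d) (Fin d) ℝ) : Prop :=
  (∀ i j, 0 ≤ M i j) ∧ (∀ i, ∑ j, M i j = 1) ∧ ∃ k : ℕ, ∀ i j, 0 < (M ^ k) i j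

/-- `π` is a stationary distribution of `M`. -/
def IsStationary {d : ℕ} (π : Fin d → ℝ) (M : Matrix (Fin d) (Fin d) ℝ) : Prop :=
  (∀ i, 0 ≤ π i) ∧ ∑ i, π i = 1 ∧ ∀ j, ∑ i, π i * M i j = π j

/-- The time reversal `M^*(i,j) = π(j) M(j,i) / π(i)`. -/
def timeReversal {d : ℕ} (π : Fin d → ℝ) (M : Matrix (Fin d) (Fin d) ℝ) :
    Matrix (Fin d) (Fin d) ℝ := Matrix.of fun i j => π j * M j i / π i

/-- The multiplicative reversiblization `M^† = M^* M`. -/
def dagger {d : ℕ} (π : Fin d → ℝ) (M : Matrix (Fin d) (Fin d) ℝ) :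
    Matrix (Fin d) (Fin d) ℝ := timeReversal π M * M

/-- The second largest eigenvalue: the second entry of the list of the real roots of the
characteristic polynomial (with multiplicity), sorted in decreasing order. -/
def lambda2 {d : ℕ} (A : Matrix (Fin d) (Fin d) ℝ) : ℝ :=
  (A.charpoly.roots.sort (· ≥ ·)).getD 1 0

/-- The spectral gap `γ(A) = 1 - λ₂(A)`. -/
def gap {d : ℕ} (A : Matrix (Fin d) (Fin d) ℝ) : ℝ := 1 - lambda2 A

/-- The pseudo spectral gap `γ_ps(M) = sup_{k ≥ 1} γ((M^k)^†) / k`. -/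
def pseudoGap {d : ℕ} (π : Fin d → ℝ) (M : Matrix (Fin d) (Fin d) ℝ) : ℝ :=
  ⨆ k : ℕ, gap (dagger π (M ^ (k + 1))) / ((k + 1 : ℕ) : ℝ)

/-- The `α`-lazy version `α I + (1 - α) M`. -/
def lazyVersion {d : ℕ} (α : ℝ) (M : Matrix (Fin d) (Fin d) ℝ) : Matrix (Fin d) (Fin d) ℝ :=
  α • (1 : Matrix (Fin d) (Fin d) ℝ) + (1 - α) • M

/-! ### Spectral lemmas -/

section spectral

variable {E : Type*} [NormedAddCommGroup E] [InnerProductSpace ℝ E] [FiniteDimensional ℝ E]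

theorem inner_T_expand {T : E →ₗ[ℝ] E} (hT : T.IsSymmetric) {n : ℕ}
    (hn : Module.finrank ℝ E = n) (g : E) :
    ⟪T g, g⟫ = ∑ i, hT.eigenvalues hn i * ⟪hT.eigenvectorBasis hn i, g⟫ ^ 2 := by
  have h := (hT.eigenvectorBasis hn).sum_inner_mul_inner (T g) g
  rw [← h]
  refine Finset.sum_congr rfl fun i _ => ?_
  have h1 : ⟪T g, hT.eigenvectorBasis hn i⟫ = hT.eigenvalues hn i * ⟪hT.eigenvectorBasis hn i, g⟫ := by
    rw [hT g, hT.apply_eigenvectorBasis]
    simp [inner_smul_right, real_inner_comm]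
  rw [h1]; ring

theorem norm_sq_expand {T : E →ₗ[ℝ] E} (hT : T.IsSymmetric) {n : ℕ}
    (hn : Module.finrank ℝ E = n) (g : E) :
    ‖g‖ ^ 2 = ∑ i, ⟪hT.eigenvectorBasis hn i, g⟫ ^ 2 := by
  have h := (hT.eigenvectorBasis hn).sum_inner_mul_inner g g
  rw [real_inner_self_eq_norm_sq] at h
  rw [← h]
  refine Finset.sum_congr rfl fun i _ => ?_
  rw [real_inner_comm]; ring

theorem inner_le_of_perp_zero {T : E →ₗ[ℝ] E} (hT : T.IsSymmetric) {n : ℕ}
    (hn : Module.finrank ℝ E = n) (h2 : 1 < n) (g : E)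
    (hg : ⟪hT.eigenvectorBasis hn ⟨0, by omega⟩, g⟫ = 0) :
    ⟪T g, g⟫ ≤ hT.eigenvalues hn ⟨1, h2⟩ * ‖g‖ ^ 2 := by
  rw [inner_T_expand hT hn, norm_sq_expand hT hn, Finset.mul_sum]
  refine Finset.sum_le_sum fun i _ => ?_
  rcases Nat.eq_zero_or_pos i.1 with h0 | h0
  · have : i = ⟨0, by omega⟩ := Fin.ext h0
    rw [this, hg]; simp
  · have hle : hT.eigenvalues hn i ≤ hT.eigenvalues hn ⟨1, h2⟩ :=
      hT.eigenvalues_antitone hn (by rw [Fin.le_def]; exact h0)
    exact mul_le_mul_of_nonneg_right hle (sq_nonneg _)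

/-- Rayleigh quotients on the orthogonal complement of the top eigenvector are at most the
second eigenvalue. -/
theorem rayleigh_le {T : E →ₗ[ℝ] E} (hT : T.IsSymmetric) {n : ℕ}
    (hn : Module.finrank ℝ E = n) (h2 : 1 < n) (hle : ∀ x, ⟪T x, x⟫ ≤ ‖x‖ ^ 2)
    {u : E} (hu : u ≠ 0) (hTu : T u = u) {f : E} (hf : ⟪u, f⟫ = 0) :
    ⟪T f, f⟫ ≤ hT.eigenvalues hn ⟨1, h2⟩ * ‖f‖ ^ 2 := by
  set l := hT.eigenvalues hn ⟨1, h2⟩ with hl
  set b0 := hT.eigenvectorBasis hn ⟨0, by omega⟩ with hb0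
  have hb1 : ‖hT.eigenvectorBasis hn ⟨1, h2⟩‖ = 1 := (hT.eigenvectorBasis hn).norm_eq_one _
  have hl1 : l ≤ 1 := by
    have h := hle (hT.eigenvectorBasis hn ⟨1, h2⟩)
    rw [hT.apply_eigenvectorBasis, hb1] at h
    simp only [RCLike.ofReal_real_eq_id, id_eq, inner_smul_left, conj_trivial] at h
    rw [real_inner_self_eq_norm_sq, hb1] at h
    simpa using h
  have hupos : 0 < ‖u‖ ^ 2 := by positivity
  by_cases hB : ⟪b0, u⟫ = 0
  · have h := inner_le_of_perp_zero hT hn h2 u hB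
    rw [hTu, real_inner_self_eq_norm_sq] at h
    have h1 : 1 ≤ l := by
      by_contra hcon
      push Not at hcon
      nlinarith
    have h3 := hle f
    nlinarith [sq_nonneg ‖f‖]
  · set A := ⟪b0, f⟫ with hA
    set B := ⟪b0, u⟫ with hBdef
    set g := A • u - B • f with hg
    have hg0 : ⟪b0, g⟫ = 0 := by
      rw [hg, inner_sub_right, inner_smul_right, inner_smul_right, ← hA, ← hBdef]; ring
    have h := inner_le_of_perp_zero hT hn h2 g hg0
    have hfu : ⟪f, u⟫ = 0 := by rw [real_inner_comm]; exact hf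
    have h4 : ⟪T f, u⟫ = 0 := by rw [hT f u, hTu]; exact hfu
    have h5 : ⟪T g, g⟫ = A ^ 2 * ‖u‖ ^ 2 + B ^ 2 * ⟪T f, f⟫ := by
      rw [hg]
      simp only [map_sub, map_smul, inner_sub_left, inner_sub_right, inner_smul_left,
        inner_smul_right, conj_trivial, hTu, hf, h4, real_inner_self_eq_norm_sq]
      ring
    have h6 : ‖g‖ ^ 2 = A ^ 2 * ‖u‖ ^ 2 + B ^ 2 * ‖f‖ ^ 2 := by
      rw [← real_inner_self_eq_norm_sq, hg]
      simp only [inner_sub_left, inner_sub_right, inner_smul_left,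
        inner_smul_right, conj_trivial, hf, hfu, real_inner_self_eq_norm_sq]
      ring
    rw [h5, h6] at h
    have hBpos : 0 < B ^ 2 := by positivity
    have h7 : 0 ≤ A ^ 2 * ‖u‖ ^ 2 * (1 - l) := by
      have : 0 ≤ 1 - l := by linarith
      positivity
    have h8 : B ^ 2 * ⟪T f, f⟫ ≤ B ^ 2 * (l * ‖f‖ ^ 2) := by nlinarith
    exact le_of_mul_le_mul_left h8 hBpos

/-- There is a nonzero vector orthogonal to `u` whose Rayleigh quotient is at least the second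
eigenvalue. -/
theorem exists_rayleigh_ge {T : E →ₗ[ℝ] E} (hT : T.IsSymmetric) {n : ℕ}
    (hn : Module.finrank ℝ E = n) (h2 : 1 < n) (u : E) :
    ∃ g : E, g ≠ 0 ∧ ⟪u, g⟫ = 0 ∧ hT.eigenvalues hn ⟨1, h2⟩ * ‖g‖ ^ 2 ≤ ⟪T g, g⟫ := by
  set b := hT.eigenvectorBasis hn with hb
  set i0 : Fin n := ⟨0, by omega⟩ with hi0
  set i1 : Fin n := ⟨1, h2⟩ with hi1
  have h01 : hT.eigenvalues hn i1 ≤ hT.eigenvalues hn i0 :=
    hT.eigenvalues_antitone hn (by rw [Fin.le_def]; simp [hi0, hi1])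
  have hn0 : ‖b i0‖ = 1 := b.norm_eq_one _
  have hn1 : ‖b i1‖ = 1 := b.norm_eq_one _
  have hne : i0 ≠ i1 := by simp [hi0, hi1, Fin.ext_iff]
  have hperp : ⟪b i0, b i1⟫ = 0 := b.orthonormal.2 hne
  have hperp' : ⟪b i1, b i0⟫ = 0 := b.orthonormal.2 hne.symm
  have hT0 : T (b i0) = hT.eigenvalues hn i0 • b i0 := hT.apply_eigenvectorBasis hn i0
  have hT1 : T (b i1) = hT.eigenvalues hn i1 • b i1 := hT.apply_eigenvectorBasis hn i1
  by_cases h : ⟪u, b i1⟫ = 0
  · refine ⟨b i1, ?_, h, ?_⟩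
    · intro h0; rw [h0] at hn1; simp at hn1
    · rw [hT1, inner_smul_left, real_inner_self_eq_norm_sq]; simp
  · set p := ⟪u, b i1⟫ with hp
    set q := ⟪u, b i0⟫ with hq
    refine ⟨p • b i0 - q • b i1, ?_, ?_, ?_⟩
    · intro h0
      have h3 : ⟪b i0, p • b i0 - q • b i1⟫ = 0 := by rw [h0]; simp
      rw [inner_sub_right, inner_smul_right, inner_smul_right, real_inner_self_eq_norm_sq, hn0,
        hperp] at h3
      apply h; linarith
    · rw [inner_sub_right, inner_smul_right, inner_smul_right, ← hp, ← hq]; ring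
    · have e1 : ⟪T (p • b i0 - q • b i1), p • b i0 - q • b i1⟫
          = p ^ 2 * hT.eigenvalues hn i0 + q ^ 2 * hT.eigenvalues hn i1 := by
        simp only [map_sub, map_smul, hT0, hT1, inner_sub_left, inner_sub_right, inner_smul_left,
          inner_smul_right, conj_trivial, hperp, hperp', real_inner_self_eq_norm_sq, hn0, hn1]
        ring
      have e2 : ‖p • b i0 - q • b i1‖ ^ 2 = p ^ 2 + q ^ 2 := by
        rw [← real_inner_self_eq_norm_sq]
        simp only [inner_sub_left, inner_sub_right, inner_smul_left,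
          inner_smul_right, conj_trivial, hperp, hperp', real_inner_self_eq_norm_sq, hn0, hn1]
        ring
      rw [e1, e2]
      nlinarith [sq_nonneg p, sq_nonneg q]

end spectral

/-! ### The conjugated matrix -/

section conj

variable {d : ℕ}

/-- `D^{1/2} N D^{-1/2}` with `D = diag π`. -/
def cj (π : Fin d → ℝ) (N : Matrix (Fin d) (Fin d) ℝ) : Matrix (Fin d) (Fin d) ℝ :=
  Matrix.of fun i j => √(π i) * N i j / √(π j)

theorem cj_eq (π : Fin d → ℝ) (N : Matrix (Fin d) (Fin d) ℝ) :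
    cj π N = diagonal (fun i => √(π i)) * N * diagonal (fun i => (√(π i))⁻¹) := by
  ext i j
  simp [cj, Matrix.mul_diagonal, Matrix.diagonal_mul, div_eq_mul_inv]

theorem dinv (π : Fin d → ℝ) (hπ : ∀ i, 0 < π i) :
    diagonal (fun i => (√(π i))⁻¹) * diagonal (fun i => √(π i)) = 1 := by
  rw [diagonal_mul_diagonal]
  rw [← diagonal_one]
  congr 1
  ext i
  exact inv_mul_cancel₀ (Real.sqrt_pos.mpr (hπ i)).ne'

theorem dinv' (π : Fin d → ℝ) (hπ : ∀ i, 0 < π i) :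
    diagonal (fun i => √(π i)) * diagonal (fun i => (√(π i))⁻¹) = 1 := by
  rw [diagonal_mul_diagonal]
  rw [← diagonal_one]
  congr 1
  ext i
  exact mul_inv_cancel₀ (Real.sqrt_pos.mpr (hπ i)).ne'

theorem cj_charpoly (π : Fin d → ℝ) (hπ : ∀ i, 0 < π i) (N : Matrix (Fin d) (Fin d) ℝ) :
    (cj π N).charpoly = N.charpoly := by
  rw [cj_eq, Matrix.charpoly_mul_comm, ← mul_assoc, dinv π hπ, one_mul]

theorem cj_mul (π : Fin d → ℝ) (hπ : ∀ i, 0 < π i) (M N : Matrix (Fin d) (Fin d) ℝ) :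
    cj π (M * N) = cj π M * cj π N := by
  simp only [cj_eq]
  calc diagonal (fun i => √(π i)) * (M * N) * diagonal (fun i => (√(π i))⁻¹)
      = diagonal (fun i => √(π i)) * M * 1 * (N * diagonal (fun i => (√(π i))⁻¹)) := by
        simp only [mul_one, mul_assoc]
    _ = _ := by rw [← dinv π hπ]; simp only [mul_assoc]

theorem cj_one (π : Fin d → ℝ) (hπ : ∀ i, 0 < π i) : cj π 1 = 1 := by
  rw [cj_eq, mul_one, dinv' π hπ]

theorem cj_pow (π : Fin d → ℝ) (hπ : ∀ i, 0 < π i) (M : Matrix (Fin d) (Fin d) ℝ) (k : ℕ) :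
    cj π (M ^ k) = cj π M ^ k := by
  induction k with
  | zero => simp [cj_one π hπ]
  | succ k ih => rw [pow_succ, pow_succ, cj_mul π hπ, ih]

theorem cj_timeReversal (π : Fin d → ℝ) (hπ : ∀ i, 0 < π i) (N : Matrix (Fin d) (Fin d) ℝ) :
    cj π (timeReversal π N) = (cj π N)ᵀ := by
  ext i j
  have hi := (Real.sqrt_pos.mpr (hπ i)).ne'
  have hj := (Real.sqrt_pos.mpr (hπ j)).ne'
  have e1 : π i = √(π i) * √(π i) := (Real.mul_self_sqrt (hπ i).le).symm
  have e2 : π j = √(π j) * √(π j) := (Real.mul_self_sqrt (hπ j).le).symm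
  simp only [cj, timeReversal, Matrix.of_apply, Matrix.transpose_apply]
  have e3 : π j * N j i / π i = √(π j) * √(π j) * N j i / (√(π i) * √(π i)) := by
    rw [← e1, ← e2]
  rw [e3]
  field_simp

/-- the action of a matrix on the Euclidean space -/
def act (A : Matrix (Fin d) (Fin d) ℝ) : EuclideanSpace ℝ (Fin d) →ₗ[ℝ] EuclideanSpace ℝ (Fin d) :=
  Matrix.toEuclideanLin A

theorem act_apply (A : Matrix (Fin d) (Fin d) ℝ) (x : EuclideanSpace ℝ (Fin d)) (i : Fin d) :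
    act A x i = ∑ j, A i j * x j := by
  simp [act, Matrix.toLpLin_apply, Matrix.mulVec, dotProduct]

theorem act_mul (A B : Matrix (Fin d) (Fin d) ℝ) (x : EuclideanSpace ℝ (Fin d)) :
    act (A * B) x = act A (act B x) := by
  ext i
  simp only [act_apply, Matrix.mul_apply, Finset.sum_mul, Finset.mul_sum]
  rw [Finset.sum_comm]
  simp only [mul_assoc]

theorem act_one (x : EuclideanSpace ℝ (Fin d)) : act 1 x = x := by
  ext i
  simp [act_apply, Matrix.one_apply]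

theorem inner_act_transpose (A : Matrix (Fin d) (Fin d) ℝ) (x y : EuclideanSpace ℝ (Fin d)) :
    ⟪act Aᵀ x, y⟫ = ⟪x, act A y⟫ := by
  simp only [PiLp.inner_apply, act_apply, Matrix.transpose_apply, RCLike.inner_apply, conj_trivial,
    Finset.sum_mul, Finset.mul_sum]
  rw [Finset.sum_comm]
  refine Finset.sum_congr rfl fun i _ => Finset.sum_congr rfl fun j _ => ?_
  ring

theorem isHermitian_tm (A : Matrix (Fin d) (Fin d) ℝ) : (Aᵀ * A).IsHermitian := by
  have := Matrix.isHermitian_conjTranspose_mul_self A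
  rwa [Matrix.conjTranspose_eq_transpose_of_trivial] at this

theorem inner_tm (A : Matrix (Fin d) (Fin d) ℝ) (x : EuclideanSpace ℝ (Fin d)) :
    ⟪act (Aᵀ * A) x, x⟫ = ‖act A x‖ ^ 2 := by
  rw [act_mul, inner_act_transpose, real_inner_self_eq_norm_sq]

/-- the vector with entries `√π i` -/
def uvec (π : Fin d → ℝ) : EuclideanSpace ℝ (Fin d) := WithLp.toLp 2 (fun i => √(π i))

theorem uvec_apply (π : Fin d → ℝ) (i : Fin d) : uvec π i = √(π i) := rfl

theorem lambda2_dagger (hd : 2 ≤ d) (π : Fin d → ℝ) (hπ : ∀ i, 0 < π i)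
    (N : Matrix (Fin d) (Fin d) ℝ) :
    lambda2 (dagger π N) = (isSymmetric_toEuclideanLin_iff.mpr
      (isHermitian_tm (cj π N))).eigenvalues (finrank_euclideanSpace (𝕜 := ℝ))
        ⟨1, by rw [Fintype.card_fin]; omega⟩ := by
  have hA := isHermitian_tm (cj π N)
  have h1 : (dagger π N).charpoly = ((cj π N)ᵀ * cj π N).charpoly := by
    rw [← cj_timeReversal π hπ, ← cj_mul π hπ, cj_charpoly π hπ]; rfl
  have h2 := hA.sort_roots_charpoly_eq_eigenvalues₀
  have h3 : (((cj π N)ᵀ * cj π N).charpoly.roots.map (RCLike.re : ℝ → ℝ))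
      = ((cj π N)ᵀ * cj π N).charpoly.roots := by
    have : (RCLike.re : ℝ → ℝ) = id := by ext x; simp
    rw [this, Multiset.map_id]
  rw [h3] at h2
  unfold lambda2
  rw [h1, h2]
  have h4 : 1 < (List.ofFn hA.eigenvalues₀).length := by rw [List.length_ofFn, Fintype.card_fin]; omega
  rw [List.getD_eq_getElem _ _ h4, List.getElem_ofFn]
  rfl

theorem norm_act_sq_le (hd : 2 ≤ d) (π : Fin d → ℝ) (hπ : ∀ i, 0 < π i)
    (N : Matrix (Fin d) (Fin d) ℝ) (hle : ∀ x, ‖act (cj π N) x‖ ≤ ‖x‖)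
    (hu : act (cj π N) (uvec π) = uvec π) (hu' : act (cj π N)ᵀ (uvec π) = uvec π)
    (f : EuclideanSpace ℝ (Fin d)) (hf : ⟪uvec π, f⟫ = 0) :
    ‖act (cj π N) f‖ ^ 2 ≤ lambda2 (dagger π N) * ‖f‖ ^ 2 := by
  rw [lambda2_dagger hd π hπ, ← inner_tm]
  refine rayleigh_le (T := act ((cj π N)ᵀ * cj π N)) _ _ _ ?_ (u := uvec π) ?_ ?_ hf
  · intro x
    rw [inner_tm]
    exact pow_le_pow_left₀ (norm_nonneg _) (hle x) 2
  · intro h
    have h1 : uvec π ⟨0, by omega⟩ = 0 := by rw [h]; rfl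
    rw [uvec_apply] at h1
    exact (Real.sqrt_pos.mpr (hπ _)).ne' h1
  · rw [act_mul, hu, hu']

theorem exists_norm_act_sq_ge (hd : 2 ≤ d) (π : Fin d → ℝ) (hπ : ∀ i, 0 < π i)
    (N : Matrix (Fin d) (Fin d) ℝ) :
    ∃ g : EuclideanSpace ℝ (Fin d), g ≠ 0 ∧ ⟪uvec π, g⟫ = 0 ∧
      lambda2 (dagger π N) * ‖g‖ ^ 2 ≤ ‖act (cj π N) g‖ ^ 2 := by
  obtain ⟨g, h1, h2, h3⟩ := exists_rayleigh_ge (T := act ((cj π N)ᵀ * cj π N))
    (isSymmetric_toEuclideanLin_iff.mpr (isHermitian_tm (cj π N)))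
    (finrank_euclideanSpace (𝕜 := ℝ)) (by rw [Fintype.card_fin]; omega) (uvec π)
  refine ⟨g, h1, h2, ?_⟩
  rw [lambda2_dagger hd π hπ, ← inner_tm]
  exact h3

theorem lambda2_nonneg (hd : 2 ≤ d) (π : Fin d → ℝ) (hπ : ∀ i, 0 < π i)
    (N : Matrix (Fin d) (Fin d) ℝ) : 0 ≤ lambda2 (dagger π N) := by
  rw [lambda2_dagger hd π hπ]
  have hA := isHermitian_tm (cj π N)
  set T := act ((cj π N)ᵀ * cj π N) with hT
  have hTs : T.IsSymmetric := isSymmetric_toEuclideanLin_iff.mpr hA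
  have h1 : (hTs.eigenvectorBasis (finrank_euclideanSpace (𝕜 := ℝ))
      ⟨1, by rw [Fintype.card_fin]; omega⟩ : EuclideanSpace ℝ (Fin d)) ≠ 0 :=
    (hTs.eigenvectorBasis _).orthonormal.ne_zero _
  have h2 := inner_tm (cj π N) (hTs.eigenvectorBasis (finrank_euclideanSpace (𝕜 := ℝ))
      ⟨1, by rw [Fintype.card_fin]; omega⟩)
  rw [← hT, hTs.apply_eigenvectorBasis] at h2
  simp only [RCLike.ofReal_real_eq_id, id_eq, inner_smul_left, conj_trivial] at h2
  rw [real_inner_self_eq_norm_sq, (hTs.eigenvectorBasis _).norm_eq_one] at h2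
  have h3 : 0 ≤ ‖act (cj π N) (hTs.eigenvectorBasis (finrank_euclideanSpace (𝕜 := ℝ))
      ⟨1, by rw [Fintype.card_fin]; omega⟩)‖ ^ 2 := sq_nonneg _
  rw [← h2] at h3
  have h4 : 0 ≤ hTs.eigenvalues (finrank_euclideanSpace (𝕜 := ℝ))
      ⟨1, by rw [Fintype.card_fin]; omega⟩ := by simpa using h3
  exact h4

end conj

/-! ### Markov chains -/

section chain

variable {d : ℕ}

theorem pos_of_stationary {π : Fin d → ℝ} {M : Matrix (Fin d) (Fin d) ℝ}
    (hM : IsErgodic M) (hπ : IsStationary π M) (i : Fin d) : 0 < π i := by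
  obtain ⟨k, hk⟩ := hM.2.2
  have hst : ∀ n : ℕ, ∀ j, ∑ i, π i * (M ^ n) i j = π j := by
    intro n
    induction n with
    | zero => intro j; simp [Matrix.one_apply]
    | succ n ih =>
      intro j
      have : ∀ i, π i * (M ^ (n + 1)) i j = ∑ l, π i * (M ^ n) i l * M l j := by
        intro i
        rw [pow_succ, Matrix.mul_apply, Finset.mul_sum]
        exact Finset.sum_congr rfl fun l _ => by ring
      simp only [this]
      rw [Finset.sum_comm]
      simp only [← Finset.sum_mul, ih]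
      exact hπ.2.2 j
  rw [← hst k i]
  obtain ⟨j, _, hj⟩ : ∃ j ∈ univ, 0 < π j := by
    by_contra hcon
    push Not at hcon
    have : ∑ i, π i ≤ 0 := Finset.sum_nonpos fun j hj => hcon j hj
    rw [hπ.2.1] at this; linarith
  refine Finset.sum_pos' (fun l _ => mul_nonneg (hπ.1 l) (hk l i).le) ⟨j, mem_univ j, ?_⟩
  exact mul_pos hj (hk j i)

/-- A stochastic matrix with stationary law `π`, as a structure used in the proofs. -/
structure Good (π : Fin d → ℝ) (N : Matrix (Fin d) (Fin d) ℝ) : Prop where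
  nonneg : ∀ i j, 0 ≤ N i j
  sum : ∀ i, ∑ j, N i j = 1
  stat : ∀ j, ∑ i, π i * N i j = π j

theorem Good.one (π : Fin d → ℝ) : Good π 1 where
  nonneg i j := by rw [Matrix.one_apply]; split_ifs <;> norm_num
  sum i := by simp [Matrix.one_apply]
  stat j := by simp [Matrix.one_apply]

theorem Good.mul {π : Fin d → ℝ} {M N : Matrix (Fin d) (Fin d) ℝ} (hM : Good π M)
    (hN : Good π N) : Good π (M * N) where
  nonneg i j := by
    rw [Matrix.mul_apply]
    exact Finset.sum_nonneg fun l _ => mul_nonneg (hM.nonneg i l) (hN.nonneg l j)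
  sum i := by
    simp only [Matrix.mul_apply]
    rw [Finset.sum_comm]
    simp only [← Finset.mul_sum, hN.sum, mul_one, hM.sum]
  stat j := by
    have : ∀ i, π i * (M * N) i j = ∑ l, π i * M i l * N l j := by
      intro i
      rw [Matrix.mul_apply, Finset.mul_sum]
      exact Finset.sum_congr rfl fun l _ => by ring
    simp only [this]
    rw [Finset.sum_comm]
    simp only [← Finset.sum_mul, hM.stat, hN.stat]

theorem Good.pow {π : Fin d → ℝ} {M : Matrix (Fin d) (Fin d) ℝ} (hM : Good π M) (k : ℕ) :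
    Good π (M ^ k) := by
  induction k with
  | zero => rw [pow_zero]; exact Good.one π
  | succ k ih => rw [pow_succ]; exact ih.mul hM

theorem Good.lazy {π : Fin d → ℝ} {M : Matrix (Fin d) (Fin d) ℝ} (hM : Good π M) {α : ℝ}
    (h0 : 0 ≤ α) (h1 : α ≤ 1) : Good π (lazyVersion α M) where
  nonneg i j := by
    have := (Good.one (d := d) π).nonneg i j
    simp only [lazyVersion, Matrix.add_apply, Matrix.smul_apply, smul_eq_mul]
    have h2 : 0 ≤ 1 - α := by linarith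
    exact add_nonneg (mul_nonneg h0 this) (mul_nonneg h2 (hM.nonneg i j))
  sum i := by
    simp only [lazyVersion, Matrix.add_apply, Matrix.smul_apply, smul_eq_mul,
      Finset.sum_add_distrib, ← Finset.mul_sum, hM.sum, (Good.one (d := d) π).sum]
    ring
  stat j := by
    have : ∀ i, π i * lazyVersion α M i j
        = α * (π i * (1 : Matrix (Fin d) (Fin d) ℝ) i j) + (1 - α) * (π i * M i j) := by
      intro i
      simp only [lazyVersion, Matrix.add_apply, Matrix.smul_apply, smul_eq_mul]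
      ring
    simp only [this, Finset.sum_add_distrib, ← Finset.mul_sum, hM.stat,
      (Good.one (d := d) π).stat]
    ring

theorem Good.act_u {π : Fin d → ℝ} {N : Matrix (Fin d) (Fin d) ℝ} (hN : Good π N)
    (hπ : ∀ i, 0 < π i) : act (cj π N) (uvec π) = uvec π := by
  ext i
  rw [act_apply]
  simp only [cj, Matrix.of_apply, uvec_apply]
  have : ∀ j, √(π i) * N i j / √(π j) * √(π j) = √(π i) * N i j := by
    intro j
    have := (Real.sqrt_pos.mpr (hπ j)).ne'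
    field_simp
  simp only [this, ← Finset.mul_sum, hN.sum, mul_one]

theorem Good.act_u' {π : Fin d → ℝ} {N : Matrix (Fin d) (Fin d) ℝ} (hN : Good π N)
    (hπ : ∀ i, 0 < π i) : act (cj π N)ᵀ (uvec π) = uvec π := by
  ext i
  rw [act_apply]
  simp only [cj, Matrix.of_apply, Matrix.transpose_apply, uvec_apply]
  have h1 := (Real.sqrt_pos.mpr (hπ i))
  have : ∀ j, √(π j) * N j i / √(π i) * √(π j) = (√(π i))⁻¹ * (π j * N j i) := by
    intro j
    have e : π j = √(π j) * √(π j) := (Real.mul_self_sqrt (hπ j).le).symm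
    nth_rewrite 3 [e]
    field_simp
  simp only [this, ← Finset.mul_sum, hN.stat]
  have e : π i = √(π i) * √(π i) := (Real.mul_self_sqrt (hπ i).le).symm
  nth_rewrite 2 [e]
  field_simp

/-- variance identity -/
theorem var_identity (p h : Fin d → ℝ) (hp : ∑ j, p j = 1) :
    ∑ j, p j * h j ^ 2 - (∑ j, p j * h j) ^ 2
      = (1 / 2) * ∑ j, ∑ l, p j * p l * (h j - h l) ^ 2 := by
  have e1 : ∀ j l, p j * p l * (h j - h l) ^ 2
      = p l * (p j * h j ^ 2) - 2 * ((p j * h j) * (p l * h l)) + p j * (p l * h l ^ 2) := by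
    intro j l; ring
  have e2 : ∑ j, ∑ l, p j * p l * (h j - h l) ^ 2
      = 2 * ∑ j, p j * h j ^ 2 - 2 * (∑ j, p j * h j) ^ 2 := by
    simp only [e1, Finset.sum_add_distrib, Finset.sum_sub_distrib, ← Finset.mul_sum,
      ← Finset.sum_mul, hp]
    ring
  rw [e2]; ring

theorem norm_sq_act (π : Fin d → ℝ) (hπ : ∀ i, 0 < π i) (N : Matrix (Fin d) (Fin d) ℝ)
    (x : EuclideanSpace ℝ (Fin d)) :
    ‖act (cj π N) x‖ ^ 2 = ∑ i, π i * (∑ j, N i j * (x j / √(π j))) ^ 2 := by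
  rw [EuclideanSpace.norm_sq_eq]
  refine Finset.sum_congr rfl fun i _ => ?_
  rw [act_apply, Real.norm_eq_abs, sq_abs]
  have : ∑ j, cj π N i j * x j = √(π i) * ∑ j, N i j * (x j / √(π j)) := by
    rw [Finset.mul_sum]
    refine Finset.sum_congr rfl fun j _ => ?_
    simp only [cj, Matrix.of_apply]
    ring
  rw [this, mul_pow, Real.sq_sqrt (hπ i).le]

theorem Good.norm_sq_sub {π : Fin d → ℝ} {N : Matrix (Fin d) (Fin d) ℝ} (hN : Good π N)
    (hπ : ∀ i, 0 < π i) (x : EuclideanSpace ℝ (Fin d)) :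
    ‖x‖ ^ 2 - ‖act (cj π N) x‖ ^ 2
      = ∑ i, π i * ((1 / 2) * ∑ j, ∑ l, N i j * N i l *
          (x j / √(π j) - x l / √(π l)) ^ 2) := by
  rw [norm_sq_act π hπ]
  have h1 : ‖x‖ ^ 2 = ∑ i, π i * ∑ j, N i j * (x j / √(π j)) ^ 2 := by
    rw [EuclideanSpace.norm_sq_eq]
    simp only [Finset.mul_sum]
    rw [Finset.sum_comm]
    refine Finset.sum_congr rfl fun j _ => ?_
    have : ∀ i, π i * (N i j * (x j / √(π j)) ^ 2) = (x j / √(π j)) ^ 2 * (π i * N i j) := by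
      intro i; ring
    simp only [this, ← Finset.mul_sum, hN.stat]
    rw [Real.norm_eq_abs, sq_abs, div_pow, Real.sq_sqrt (hπ j).le]
    have := (hπ j).ne'
    field_simp
  rw [h1, ← Finset.sum_sub_distrib]
  refine Finset.sum_congr rfl fun i _ => ?_
  rw [← mul_sub, var_identity _ _ (hN.sum i)]

theorem Good.norm_act_le {π : Fin d → ℝ} {N : Matrix (Fin d) (Fin d) ℝ} (hN : Good π N)
    (hπ : ∀ i, 0 < π i) (x : EuclideanSpace ℝ (Fin d)) : ‖act (cj π N) x‖ ≤ ‖x‖ := by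
  have h := hN.norm_sq_sub hπ x
  have h2 : 0 ≤ ∑ i, π i * ((1 / 2) * ∑ j, ∑ l, N i j * N i l *
          (x j / √(π j) - x l / √(π l)) ^ 2) := by
    refine Finset.sum_nonneg fun i _ => mul_nonneg (hπ i).le (mul_nonneg (by norm_num) ?_)
    refine Finset.sum_nonneg fun j _ => Finset.sum_nonneg fun l _ => ?_
    exact mul_nonneg (mul_nonneg (hN.nonneg i j) (hN.nonneg i l)) (sq_nonneg _)
  rw [← h] at h2
  exact le_of_sq_le_sq (by linarith) (norm_nonneg _)

theorem Good.lambda2_le_one (hd : 2 ≤ d) {π : Fin d → ℝ} {N : Matrix (Fin d) (Fin d) ℝ}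
    (hN : Good π N) (hπ : ∀ i, 0 < π i) : lambda2 (dagger π N) ≤ 1 := by
  obtain ⟨g, hg, _, hg2⟩ := exists_norm_act_sq_ge hd π hπ N
  have h := hN.norm_act_le hπ g
  have h1 : ‖act (cj π N) g‖ ^ 2 ≤ ‖g‖ ^ 2 := pow_le_pow_left₀ (norm_nonneg _) h 2
  have h2 : 0 < ‖g‖ ^ 2 := by positivity
  by_contra hcon
  push Not at hcon
  nlinarith

theorem Good.lambda2_lt_one (hd : 2 ≤ d) {π : Fin d → ℝ} {N : Matrix (Fin d) (Fin d) ℝ}
    (hN : Good π N) (hπ : ∀ i, 0 < π i) (hpos : ∀ i j, 0 < N i j) :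
    lambda2 (dagger π N) < 1 := by
  obtain ⟨g, hg, hgu, hg2⟩ := exists_norm_act_sq_ge hd π hπ N
  have h2 : 0 < ‖g‖ ^ 2 := by positivity
  by_contra hcon
  push Not at hcon
  have h3 : ‖g‖ ^ 2 ≤ ‖act (cj π N) g‖ ^ 2 := by nlinarith
  have h := hN.norm_sq_sub hπ g
  have hnn : ∀ i ∈ (univ : Finset (Fin d)), 0 ≤ π i * ((1 / 2) * ∑ j, ∑ l, N i j * N i l *
          (g j / √(π j) - g l / √(π l)) ^ 2) := by
    intro i _
    refine mul_nonneg (hπ i).le (mul_nonneg (by norm_num) ?_)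
    refine Finset.sum_nonneg fun j _ => Finset.sum_nonneg fun l _ => ?_
    exact mul_nonneg (mul_nonneg (hN.nonneg i j) (hN.nonneg i l)) (sq_nonneg _)
  have h0 : ∑ i, π i * ((1 / 2) * ∑ j, ∑ l, N i j * N i l *
          (g j / √(π j) - g l / √(π l)) ^ 2) = 0 :=
    le_antisymm (by rw [← h]; linarith) (Finset.sum_nonneg hnn)
  have h00 := (Finset.sum_eq_zero_iff_of_nonneg hnn).mp h0 ⟨0, by omega⟩ (mem_univ _)
  have h01 : ∑ j, ∑ l, N ⟨0, by omega⟩ j * N ⟨0, by omega⟩ l *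
          (g j / √(π j) - g l / √(π l)) ^ 2 = 0 := by
    have hp := (hπ ⟨0, by omega⟩).ne'
    rcases mul_eq_zero.mp h00 with h | h
    · exact absurd h hp
    · linarith
  have hconst : ∀ j l, g j / √(π j) = g l / √(π l) := by
    intro j l
    have hnn2 : ∀ j ∈ (univ : Finset (Fin d)), 0 ≤ ∑ l, N ⟨0, by omega⟩ j * N ⟨0, by omega⟩ l *
          (g j / √(π j) - g l / √(π l)) ^ 2 := fun j _ => Finset.sum_nonneg fun l _ =>
      mul_nonneg (mul_nonneg (hN.nonneg _ j) (hN.nonneg _ l)) (sq_nonneg _)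
    have h4 := (Finset.sum_eq_zero_iff_of_nonneg hnn2).mp h01 j (mem_univ _)
    have hnn3 : ∀ l ∈ (univ : Finset (Fin d)), 0 ≤ N ⟨0, by omega⟩ j * N ⟨0, by omega⟩ l *
          (g j / √(π j) - g l / √(π l)) ^ 2 := fun l _ =>
      mul_nonneg (mul_nonneg (hN.nonneg _ j) (hN.nonneg _ l)) (sq_nonneg _)
    have h5 := (Finset.sum_eq_zero_iff_of_nonneg hnn3).mp h4 l (mem_univ _)
    have h6 : 0 < N ⟨0, by omega⟩ j * N ⟨0, by omega⟩ l := mul_pos (hpos _ _) (hpos _ _)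
    rcases mul_eq_zero.mp h5 with h | h
    · exact absurd h h6.ne'
    · have := pow_eq_zero_iff (two_ne_zero) |>.mp h
      linarith
  set c := g ⟨0, by omega⟩ / √(π ⟨0, by omega⟩) with hc
  have hg' : ∀ j, g j = c * √(π j) := by
    intro j
    have h7 := hconst j ⟨0, by omega⟩
    rw [← hc] at h7
    have := (Real.sqrt_pos.mpr (hπ j)).ne'
    field_simp at h7
    linarith
  have hgc : g = c • uvec π := by
    ext j
    rw [hg' j]
    rfl
  rw [hgc, inner_smul_right, real_inner_self_eq_norm_sq] at hgu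
  rcases mul_eq_zero.mp hgu with h | h
  · apply hg; rw [hgc, h, zero_smul]
  · have : uvec π = 0 := by simpa using h
    apply hg; rw [hgc, this, smul_zero]

theorem norm_pow_act_le {π : Fin d → ℝ} {M : Matrix (Fin d) (Fin d) ℝ} (hM : Good π M)
    (hπ : ∀ i, 0 < π i) (j : ℕ) (x : EuclideanSpace ℝ (Fin d)) :
    ‖act (cj π M ^ j) x‖ ≤ ‖x‖ := by
  rw [← cj_pow π hπ]
  exact (hM.pow j).norm_act_le hπ x

theorem inner_u_act {π : Fin d → ℝ} {M : Matrix (Fin d) (Fin d) ℝ} (hM : Good π M)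
    (hπ : ∀ i, 0 < π i) (j : ℕ) (x : EuclideanSpace ℝ (Fin d)) (hx : ⟪uvec π, x⟫ = 0) :
    ⟪uvec π, act (cj π M ^ j) x⟫ = 0 := by
  rw [← cj_pow π hπ, ← inner_act_transpose, (hM.pow j).act_u' hπ, hx]

/-- binomial tail bound -/
theorem binom_tail {p : ℝ} (hp0 : 0 < p) (hp1 : p ≤ 1) (K m : ℕ) (hK : 1 ≤ K)
    (hm : 2 * K / p ≤ m) :
    ∑ j ∈ range (m + 1), (if j < K then p ^ j * (1 - p) ^ (m - j) * (m.choose j : ℝ) else 0)
      ≤ 1 / 2 := by
  have h1p : 0 ≤ 1 - p := by linarith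
  have h1 : ∀ j ∈ range (m + 1),
      (if j < K then p ^ j * (1 - p) ^ (m - j) * (m.choose j : ℝ) else 0)
        ≤ 2 ^ (K - 1) * ((p / 2) ^ j * (1 - p) ^ (m - j) * (m.choose j : ℝ)) := by
    intro j _
    have hnn : 0 ≤ (p / 2) ^ j * (1 - p) ^ (m - j) * (m.choose j : ℝ) := by positivity
    split_ifs with hj
    · have h2 : (p : ℝ) ^ j = 2 ^ j * (p / 2) ^ j := by rw [← mul_pow]; congr 1; ring
      rw [h2]
      have h3 : (2 : ℝ) ^ j ≤ 2 ^ (K - 1) := pow_le_pow_right₀ (by norm_num) (by omega)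
      calc 2 ^ j * (p / 2) ^ j * (1 - p) ^ (m - j) * (m.choose j : ℝ)
          = 2 ^ j * ((p / 2) ^ j * (1 - p) ^ (m - j) * (m.choose j : ℝ)) := by ring
        _ ≤ _ := mul_le_mul_of_nonneg_right h3 hnn
    · positivity
  refine (Finset.sum_le_sum h1).trans ?_
  rw [← Finset.mul_sum, ← add_pow]
  have h4 : p / 2 + (1 - p) = 1 - p / 2 := by ring
  rw [h4]
  have h5 : (1 - p / 2) ^ m ≤ Real.exp (-(p / 2)) ^ m :=
    pow_le_pow_left₀ (by linarith) (by linarith [Real.add_one_le_exp (-(p / 2))]) m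
  rw [← Real.exp_nat_mul] at h5
  have h6 : (m : ℝ) * (-(p / 2)) ≤ -K := by
    have h7 : 2 * (K : ℝ) ≤ m * p := by
      rw [div_le_iff₀ hp0] at hm; exact hm
    linarith
  have h8 : Real.exp ((m : ℝ) * (-(p / 2))) ≤ Real.exp (-K) := Real.exp_le_exp.mpr h6
  have h9 : Real.exp (-(K : ℝ)) = (Real.exp (-1)) ^ K := by
    rw [← Real.exp_nat_mul]; congr 1; ring
  have h10 : Real.exp (-1) ≤ 1 / 2 := by
    rw [Real.exp_neg, ← one_div]
    apply one_div_le_one_div_of_le (by norm_num)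
    linarith [Real.add_one_le_exp (1 : ℝ)]
  have h11 : (Real.exp (-1)) ^ K ≤ (1 / 2) ^ K := pow_le_pow_left₀ (Real.exp_pos _).le h10 K
  have h12 : (2 : ℝ) ^ (K - 1) * (1 / 2) ^ K = 1 / 2 := by
    obtain ⟨k, rfl⟩ : ∃ k, K = k + 1 := ⟨K - 1, by omega⟩
    rw [Nat.add_sub_cancel, pow_succ, ← mul_assoc, ← mul_pow]; norm_num
  calc 2 ^ (K - 1) * (1 - p / 2) ^ m ≤ 2 ^ (K - 1) * (1 / 2) ^ K := by
        apply mul_le_mul_of_nonneg_left _ (by positivity)
        linarith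
    _ = 1 / 2 := h12

theorem cj_lazy (π : Fin d → ℝ) (hπ : ∀ i, 0 < π i) (α : ℝ) (M : Matrix (Fin d) (Fin d) ℝ) :
    cj π (lazyVersion α M) = (1 - α) • cj π M + α • 1 := by
  have h := cj_one π hπ
  ext i j
  have h1 := congrFun (congrFun h i) j
  simp only [cj, Matrix.of_apply] at h1
  simp only [cj, lazyVersion, Matrix.of_apply, Matrix.add_apply, Matrix.smul_apply, smul_eq_mul]
  calc √(π i) * (α * (1 : Matrix (Fin d) (Fin d) ℝ) i j + (1 - α) * M i j) / √(π j)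
      = (1 - α) * (√(π i) * M i j / √(π j))
        + α * (√(π i) * (1 : Matrix (Fin d) (Fin d) ℝ) i j / √(π j)) := by ring
    _ = _ := by rw [h1]

theorem act_add (A B : Matrix (Fin d) (Fin d) ℝ) (x : EuclideanSpace ℝ (Fin d)) :
    act (A + B) x = act A x + act B x := by
  ext i
  simp [act_apply, add_mul, Finset.sum_add_distrib]

theorem act_sum {ι : Type*} (s : Finset ι) (A : ι → Matrix (Fin d) (Fin d) ℝ)
    (x : EuclideanSpace ℝ (Fin d)) : act (∑ i ∈ s, A i) x = ∑ i ∈ s, act (A i) x := by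
  classical
  induction s using Finset.induction_on with
  | empty => ext i; simp [act_apply]
  | insert a s ha ih => rw [Finset.sum_insert ha, Finset.sum_insert ha, act_add, ih]

theorem act_smul (c : ℝ) (A : Matrix (Fin d) (Fin d) ℝ) (x : EuclideanSpace ℝ (Fin d)) :
    act (c • A) x = c • act A x := by
  ext i
  simp [act_apply, Finset.mul_sum, mul_assoc]

/-- The key estimate. -/
theorem norm_lazy_pow_le {π : Fin d → ℝ} {M : Matrix (Fin d) (Fin d) ℝ} (hM : Good π M)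
    (hπ : ∀ i, 0 < π i) {α : ℝ} (h0 : 0 < α) (h1 : α < 1) (K m : ℕ) (hK : 1 ≤ K)
    (hm : 2 * K / (1 - α) ≤ m) (ρ : ℝ) (hρ0 : 0 ≤ ρ) (hρ1 : ρ ≤ 1)
    (hρ : ∀ x, ⟪uvec π, x⟫ = 0 → ‖act (cj π M ^ K) x‖ ≤ ρ * ‖x‖)
    (x : EuclideanSpace ℝ (Fin d)) (hx : ⟪uvec π, x⟫ = 0) :
    ‖act (cj π (lazyVersion α M) ^ m) x‖ ≤ (1 + ρ) / 2 * ‖x‖ := by
  have hp0 : 0 < 1 - α := by linarith
  rw [cj_lazy π hπ]
  have hcomm : Commute ((1 - α) • cj π M) (α • (1 : Matrix (Fin d) (Fin d) ℝ)) :=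
    ((Commute.one_right _).smul_right _).smul_left _
  rw [hcomm.add_pow]
  set w : ℕ → ℝ := fun j => (1 - α) ^ j * α ^ (m - j) * (m.choose j : ℝ) with hw
  have hwnn : ∀ j, 0 ≤ w j := fun j => by positivity
  have hterm : ∀ j, ((1 - α) • cj π M) ^ j * (α • (1 : Matrix (Fin d) (Fin d) ℝ)) ^ (m - j)
      * ((m.choose j : ℕ) : Matrix (Fin d) (Fin d) ℝ) = w j • (cj π M ^ j) := by
    intro j
    rw [smul_pow, smul_pow, one_pow, ← nsmul_eq_mul']
    simp only [smul_mul_smul_comm, mul_one]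
    rw [← Nat.cast_smul_eq_nsmul ℝ, smul_smul]
    congr 1
    simp only [hw]
    ring
  simp only [hterm]
  rw [act_sum]
  refine (norm_sum_le _ _).trans ?_
  have hb : ∀ j ∈ range (m + 1), ‖act (w j • cj π M ^ j) x‖
      ≤ (ρ * w j + (1 - ρ) * (if j < K then w j else 0)) * ‖x‖ := by
    intro j _
    rw [act_smul, norm_smul, Real.norm_eq_abs, abs_of_nonneg (hwnn j)]
    split_ifs with hj
    · have := norm_pow_act_le hM hπ j x
      have h2 := mul_le_mul_of_nonneg_left this (hwnn j)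
      linarith
    · have h3 : cj π M ^ j = cj π M ^ K * cj π M ^ (j - K) := by
        rw [← pow_add]; congr 1; omega
      have h4 : ‖act (cj π M ^ j) x‖ ≤ ρ * ‖x‖ := by
        rw [h3, act_mul]
        refine (hρ _ (inner_u_act hM hπ _ x hx)).trans ?_
        exact mul_le_mul_of_nonneg_left (norm_pow_act_le hM hπ _ x) hρ0
      have h2 := mul_le_mul_of_nonneg_left h4 (hwnn j)
      linarith
  refine (Finset.sum_le_sum hb).trans ?_
  rw [← Finset.sum_mul, Finset.sum_add_distrib, ← Finset.mul_sum, ← Finset.mul_sum]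
  have hs1 : ∑ j ∈ range (m + 1), w j = 1 := by
    simp only [hw]
    rw [← add_pow]; simp
  have hs2 : ∑ j ∈ range (m + 1), (if j < K then w j else 0) ≤ 1 / 2 := by
    have h := binom_tail (p := 1 - α) hp0 (by linarith) K m hK hm
    simpa only [hw, sub_sub_cancel] using h
  rw [hs1]
  have h5 : (1 - ρ) * ∑ j ∈ range (m + 1), (if j < K then w j else 0) ≤ (1 - ρ) * (1 / 2) :=
    mul_le_mul_of_nonneg_left hs2 (by linarith)
  have h6 : ρ * 1 + (1 - ρ) * ∑ j ∈ range (m + 1), (if j < K then w j else 0)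
      ≤ (1 + ρ) / 2 := by linarith
  exact mul_le_mul_of_nonneg_right h6 (norm_nonneg _)

theorem gap_lazy_ge (hd : 2 ≤ d) {π : Fin d → ℝ} {M : Matrix (Fin d) (Fin d) ℝ}
    (hM : Good π M) (hπ : ∀ i, 0 < π i) {α : ℝ} (h0 : 0 < α) (h1 : α < 1) (K m : ℕ)
    (hK : 1 ≤ K) (hm : 2 * K / (1 - α) ≤ m) :
    gap (dagger π (M ^ K)) / 4 ≤ gap (dagger π (lazyVersion α M ^ m)) := by
  set l := lambda2 (dagger π (M ^ K)) with hl
  have hl0 : 0 ≤ l := lambda2_nonneg hd π hπ _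
  have hl1 : l ≤ 1 := (hM.pow K).lambda2_le_one hd hπ
  set ρ := √l with hρdef
  have hρ0 : 0 ≤ ρ := Real.sqrt_nonneg _
  have hρ1 : ρ ≤ 1 := by rw [hρdef]; exact Real.sqrt_le_one.mpr hl1
  have hρ2 : ρ ^ 2 = l := Real.sq_sqrt hl0
  have hρ : ∀ x, ⟪uvec π, x⟫ = 0 → ‖act (cj π M ^ K) x‖ ≤ ρ * ‖x‖ := by
    intro x hx
    rw [← cj_pow π hπ]
    have h := norm_act_sq_le hd π hπ (M ^ K) ((hM.pow K).norm_act_le hπ)
      ((hM.pow K).act_u hπ) ((hM.pow K).act_u' hπ) x hx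
    rw [← hl, ← hρ2, ← mul_pow] at h
    exact le_of_sq_le_sq h (by positivity)
  obtain ⟨g, hg, hgu, hg2⟩ := exists_norm_act_sq_ge hd π hπ (lazyVersion α M ^ m)
  have hk := norm_lazy_pow_le hM hπ h0 h1 K m hK hm ρ hρ0 hρ1 hρ g hgu
  rw [cj_pow π hπ] at hg2
  have hk2 : ‖act (cj π (lazyVersion α M) ^ m) g‖ ^ 2 ≤ ((1 + ρ) / 2 * ‖g‖) ^ 2 :=
    pow_le_pow_left₀ (norm_nonneg _) hk 2
  have hgp : 0 < ‖g‖ ^ 2 := by positivity
  have h3 : lambda2 (dagger π (lazyVersion α M ^ m)) ≤ ((1 + ρ) / 2) ^ 2 := by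
    have : lambda2 (dagger π (lazyVersion α M ^ m)) * ‖g‖ ^ 2 ≤ ((1 + ρ) / 2) ^ 2 * ‖g‖ ^ 2 := by
      rw [← mul_pow]; exact hg2.trans hk2
    exact le_of_mul_le_mul_right this hgp
  unfold gap
  rw [← hl, ← hρ2]
  nlinarith

end chain

/-- **Q1.** For every `d ≥ 2`, every ergodic `M` on `d` states with stationary distribution `π`
and every `α ∈ (0,1)`, the pseudo spectral gap of `M` lies in `(0, 1]` and
`γ_ps(α I + (1 - α) M) ≥ (1 - α) γ_ps(M) / 12`. -/
theorem result (d : ℕ) (hd : 2 ≤ d) (M : Matrix (Fin d) (Fin d) ℝ) (hM : IsErgodic M)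
    (π : Fin d → ℝ) (hπ : IsStationary π M) :
    0 < pseudoGap π M ∧ pseudoGap π M ≤ 1 ∧
      ∀ α : ℝ, 0 < α → α < 1 →
        (1 - α) / 12 * pseudoGap π M ≤ pseudoGap π (lazyVersion α M) := by
  have hpos := pos_of_stationary hM hπ
  have hG : Good π M := ⟨hM.1, hM.2.1, hπ.2.2⟩
  have hbd : ∀ N : Matrix (Fin d) (Fin d) ℝ, Good π N → ∀ k : ℕ,
      gap (dagger π (N ^ (k + 1))) / ((k + 1 : ℕ) : ℝ) ≤ 1 := by
    intro N hN k
    have h1 : gap (dagger π (N ^ (k + 1))) ≤ 1 := by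
      unfold gap; linarith [lambda2_nonneg hd π hpos (N ^ (k + 1))]
    have h2 : (1 : ℝ) ≤ ((k + 1 : ℕ) : ℝ) := by exact_mod_cast Nat.succ_le_succ (Nat.zero_le k)
    rw [div_le_one (by linarith)]
    linarith
  have hbdd : ∀ N : Matrix (Fin d) (Fin d) ℝ, Good π N →
      BddAbove (Set.range fun k : ℕ => gap (dagger π (N ^ (k + 1))) / ((k + 1 : ℕ) : ℝ)) :=
    fun N hN => ⟨1, by rintro _ ⟨k, rfl⟩; exact hbd N hN k⟩
  refine ⟨?_, ciSup_le (hbd M hG), ?_⟩
  · obtain ⟨k, hk⟩ := hM.2.2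
    have hk' : ∀ i j, 0 < (M ^ (k + 1)) i j := by
      intro i j
      rw [pow_succ', Matrix.mul_apply]
      obtain ⟨l, _, hl⟩ : ∃ l ∈ univ, 0 < M i l := by
        by_contra hcon
        push Not at hcon
        have : ∑ l, M i l ≤ 0 := Finset.sum_nonpos fun j hj => hcon j hj
        rw [hM.2.1] at this; linarith
      exact Finset.sum_pos' (fun l _ => mul_nonneg (hM.1 i l) (hk l j).le)
        ⟨l, mem_univ l, mul_pos hl (hk l j)⟩
    have h1 : 0 < gap (dagger π (M ^ (k + 1))) := by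
      unfold gap
      linarith [(hG.pow (k + 1)).lambda2_lt_one hd hpos hk']
    have h2 : 0 < gap (dagger π (M ^ (k + 1))) / ((k + 1 : ℕ) : ℝ) := by positivity
    exact h2.trans_le (le_ciSup (hbdd M hG) k)
  · intro α h0 h1
    have hp0 : 0 < 1 - α := by linarith
    have hc : 0 < (1 - α) / 12 := by positivity
    rw [mul_comm, ← le_div_iff₀ hc]
    refine ciSup_le fun k => ?_
    rw [le_div_iff₀ hc]
    set K := k + 1 with hK
    set m := ⌈2 * (K : ℝ) / (1 - α)⌉₊ with hm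
    have hm1 : 2 * (K : ℝ) / (1 - α) ≤ m := Nat.le_ceil _
    have hK1 : (1 : ℝ) ≤ K := by exact_mod_cast (by omega : 1 ≤ K)
    have hKp : (1 : ℝ) ≤ K / (1 - α) := by
      rw [le_div_iff₀ hp0]; linarith
    have hm2 : (m : ℝ) ≤ 3 * (K / (1 - α)) := by
      have h2 : 0 ≤ 2 * (K : ℝ) / (1 - α) := by positivity
      have h3 := (Nat.ceil_lt_add_one h2).le
      rw [← hm] at h3
      have h4 : 2 * (K : ℝ) / (1 - α) = 2 * (K / (1 - α)) := by ring
      linarith
    have hmpos : (0 : ℝ) < m := by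
      have : 0 < 2 * (K : ℝ) / (1 - α) := by positivity
      linarith
    have hmn : 1 ≤ m := by
      have : 0 < m := by exact_mod_cast hmpos
      omega
    obtain ⟨n, hn⟩ : ∃ n, m = n + 1 := ⟨m - 1, by omega⟩
    have hgl := gap_lazy_ge hd hG hpos h0 h1 K m (by omega) hm1
    have hgnn : 0 ≤ gap (dagger π (M ^ K)) := by
      unfold gap; linarith [(hG.pow K).lambda2_le_one hd hpos]
    have hle : gap (dagger π (lazyVersion α M ^ m)) / (m : ℝ) ≤ pseudoGap π (lazyVersion α M) := by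
      have := le_ciSup (hbdd _ (hG.lazy h0.le h1.le)) n
      rw [hn]
      exact this
    refine le_trans ?_ hle
    rw [le_div_iff₀ hmpos]
    have h5 : gap (dagger π (M ^ K)) / (K : ℝ) * ((1 - α) / 12) * m
        ≤ gap (dagger π (M ^ K)) / (K : ℝ) * ((1 - α) / 12) * (3 * (K / (1 - α))) :=
      mul_le_mul_of_nonneg_left hm2 (by positivity)
    have h6 : gap (dagger π (M ^ K)) / (K : ℝ) * ((1 - α) / 12) * (3 * (K / (1 - α)))
        = gap (dagger π (M ^ K)) / 4 := by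
      have : (K : ℝ) ≠ 0 := by positivity
      field_simp
      ring
    linarith

end

end Pool.Agent.Results.MP_67c61c_pr.LazyPseudoGap
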